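import Pool.Agent.Run7.h630.QC.Iface2
import Pool.Agent.Run7.h871.YM.Crit
import Pool.Agent.Run7.h871.YM.Pair

/-!
# Q15: the criterion at polynomially large `β`
-/

set_option linter.unusedSectionVars false
set_option linter.unusedVariables false
set_option linter.style.haveILetI false

open MeasureTheory Matrix Filter Topology
open scoped Matrix.Norms.Frobenius
open Pool.Agent.H906R3.YM Pool.Agent.W793.YM Pool.Agent.TH618.YM Pool.Agent.N984.TW
open Pool.Agent.Run7.h630.R2 (SU_closed zeta Zt TwPair La V zt_ratio)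
open Pool.Agent.Run7.h897.TW (Ens ZE ZH2 ZH2_eq ZE_ex CrS rate det_sharp)
open Pool.Agent.Run7.h897.ST (S4 S6 mu6 mu6_haar mu6_prob right_inv'' inv_inv'')
open Pool.Agent.Run7.h897.FS (dP)
open Pool.Agent.Run7.h871.TC (wE wE_bd wE_sy ZE_eq_Zt)
open Run7.h630.QC (S_Q13 S_Q14 S_Q15 Zs vol)

namespace Pool.Agent.Run7.h897.QC

noncomputable section

section crs

variable {N : ℕ} [NeZero N] {k : ℕ} [MeasurableSpace (S6 N)] [BorelSpace (S6 N)]
  (μ : Measure (S6 N)) [IsProbabilityMeasure μ]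
  [μ.IsMulLeftInvariant] [μ.IsMulRightInvariant] [μ.IsInvInvariant]

/-- the criterion from two ratios of partition functions -/
theorem crS_of (l : ℕ) [NeZero l] {a : ℕ} (ha : 1 ≤ a) [NeZero (2 * a)] [NeZero (2 * (2 * a))]
    {β s : ℝ}
    (h : ∀ c : ℕ, c = 2 * a ∨ c = 4 * a → ∀ [NeZero (2 * c)],
      1 - Zt μ l k β (2 * (2 * a)) (2 * c) / Zt μ l k β (2 * a) (2 * c) ^ 2 ≤ 1 / 15 * s) :
    CrS μ (wE N l k β) a s := by
  have hb := wE_bd (N := N) (l := l) (k := k) β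
  have hs := wE_sy (N := N) (l := l) (k := k) β
  have key : ∀ c : ℕ, c = 2 * a ∨ c = 4 * a → ∀ [NeZero (2 * c)],
      1 - ZE μ (wE N l k β) (2 * (2 * a)) (2 * c) / ZE μ (wE N l k β) (2 * a) (2 * c) ^ 2 ≤
        1 / 15 * s := by
    intro c hc inst
    rw [ZE_eq_Zt, ZE_eq_Zt]
    exact h c hc
  intro i M hi hj
  unfold dP
  fin_cases i
  · have h1 := hj 1 (by decide)
    haveI : NeZero (2 * M 1) := ⟨by omega⟩
    have e1 : ZH2 μ (wE N l k β) (Function.update M 0 (2 * a)) =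
        ZE μ (wE N l k β) (2 * (2 * a)) (2 * M 1) := ZH2_eq (by simp) (by simp)
    have e2 : ZH2 μ (wE N l k β) (Function.update M 0 a) =
        ZE μ (wE N l k β) (2 * a) (2 * M 1) := ZH2_eq (by simp) (by simp)
    show 1 - ZH2 μ (wE N l k β) (Function.update M 0 (2 * a)) /
      ZH2 μ (wE N l k β) (Function.update M 0 a) ^ 2 ≤ _
    rw [e1, e2]
    exact key _ h1
  · have h1 := hj 0 (by decide)
    haveI : NeZero (2 * M 0) := ⟨by omega⟩
    have e1 : ZH2 μ (wE N l k β) (Function.update M 1 (2 * a)) =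
        ZE μ (wE N l k β) (2 * M 0) (2 * (2 * a)) := ZH2_eq (by simp) (by simp)
    have e2 : ZH2 μ (wE N l k β) (Function.update M 1 a) =
        ZE μ (wE N l k β) (2 * M 0) (2 * a) := ZH2_eq (by simp) (by simp)
    show 1 - ZH2 μ (wE N l k β) (Function.update M 1 (2 * a)) /
      ZH2 μ (wE N l k β) (Function.update M 1 a) ^ 2 ≤ _
    rw [e1, e2, ZE_ex hb hs, ZE_ex (a := 2 * M 0) (b := 2 * a) hb hs]
    exact key _ h1

end crs

/-! ### the rate for large `l` -/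

lemma rate_lim (N : ℕ) (hN : 2 ≤ N) :
    Tendsto (fun l : ℕ => (l : ℝ) * rate l N) atTop (𝓝 (2 * Real.pi / N)) := by
  have hN0 : (0 : ℝ) < N := by positivity
  have hd : HasDerivAt (fun x : ℝ => Real.arsinh (Real.sin x)) 1 0 := by
    have h1 := (Real.hasDerivAt_sin 0).arsinh
    simpa using h1
  have h2 := hd.tendsto_slope_zero
  have h3 : Tendsto (fun l : ℕ => Real.pi / (l * N)) atTop (𝓝[≠] (0 : ℝ)) := by
    rw [tendsto_nhdsWithin_iff]
    constructor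
    · have h4 : Tendsto (fun l : ℕ => (l : ℝ) * N) atTop atTop :=
        tendsto_natCast_atTop_atTop.atTop_mul_const hN0
      exact h4.const_div_atTop Real.pi
    · filter_upwards [eventually_ge_atTop 1] with l hl
      have : (0 : ℝ) < l := by exact_mod_cast hl
      exact (div_pos Real.pi_pos (by positivity)).ne'
  have h5 := (h2.comp h3).const_mul (2 * Real.pi / N)
  rw [mul_one] at h5
  refine h5.congr' ?_
  filter_upwards [eventually_ge_atTop 1] with l hl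
  have hl0 : (0 : ℝ) < l := by exact_mod_cast hl
  unfold rate
  simp only [Function.comp_apply, zero_add, Real.sin_zero, Real.arsinh_zero, sub_zero, smul_eq_mul]
  have := Real.pi_pos.ne'
  field_simp

/-! ### numbers -/

lemma log_facts {l : ℕ} (hl : 1 ≤ l) :
    (2 : ℝ) ^ (Nat.log 2 l) ≤ l ∧ Real.log l ≤ Nat.log 2 l + 1 ∧ Nat.log 2 l + 1 ≤ l := by
  refine ⟨?_, ?_, ?_⟩
  · exact_mod_cast Nat.pow_log_le_self 2 (by omega)
  · have h1 : l < 2 ^ (Nat.log 2 l + 1) := Nat.lt_pow_succ_log_self (by norm_num) l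
    have h2 : (l : ℝ) ≤ 2 ^ (Nat.log 2 l + 1) := by exact_mod_cast h1.le
    have h3 : Real.log l ≤ Real.log (2 ^ (Nat.log 2 l + 1)) :=
      Real.log_le_log (by exact_mod_cast hl) h2
    rw [Real.log_pow] at h3
    have h4 : Real.log 2 ≤ 1 := by
      have := Real.log_two_lt_d9
      linarith
    push_cast at h3
    have h5 : (0 : ℝ) ≤ (Nat.log 2 l : ℝ) + 1 := by positivity
    nlinarith
  · have := Nat.log_lt_self 2 (show l ≠ 0 by omega)
    omega

/-- the lower bound for the ratio -/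
lemma ratio_ge {R r y η : ℝ} (hR : 0 < R) (hr : 0 < r) (hy : 0 ≤ y) (hη : 0 ≤ η) (h1 : 1 - y ≤ r)
    (h2 : |Real.log R - Real.log r| ≤ η) : 1 - R ≤ y + η := by
  have h3 : Real.log r - η ≤ Real.log R := by
    have := (abs_le.1 h2).1
    linarith
  have h4 : r * Real.exp (-η) ≤ R := by
    have e1 : r * Real.exp (-η) = Real.exp (Real.log r - η) := by
      rw [sub_eq_add_neg, Real.exp_add, Real.exp_log hr]
    rw [e1]
    calc Real.exp (Real.log r - η) ≤ Real.exp (Real.log R) := Real.exp_le_exp.2 h3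
      _ = R := Real.exp_log hR
  have h5 : 1 - η ≤ Real.exp (-η) := by
    have := Real.add_one_le_exp (-η)
    linarith
  rcases le_or_gt 1 r with h | h
  · have : Real.exp (-η) ≤ r * Real.exp (-η) := le_mul_of_one_le_left (Real.exp_pos _).le h
    linarith
  · have h6 : r * (1 - η) ≤ r * Real.exp (-η) := mul_le_mul_of_nonneg_left h5 hr.le
    nlinarith

/-- the Gaussian part -/
lemma num1 {l t n δ K T : ℝ} (hl : 1 ≤ l) (htr : t = K * T) (hT : Real.log l ≤ T) (hT0 : 0 ≤ T)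
    (hKδ : 8 ≤ δ * K) (hln : 1920 * n ≤ l * δ) (hn : 0 ≤ n) (hδ : 0 < δ) (ht : 0 ≤ t) :
    960 * (l ^ 3 * t * n) ≤ Real.exp (δ * t) := by
  have h9 : l ^ 4 ≤ Real.exp (δ * t / 2) := by
    have e1 : l ^ 4 = Real.exp (4 * Real.log l) := by
      rw [show (4 : ℝ) * Real.log l = ((4 : ℕ) : ℝ) * Real.log l by norm_num,
        Real.exp_nat_mul, Real.exp_log (by linarith)]
    rw [e1, Real.exp_le_exp, htr]
    have h1 := mul_le_mul_of_nonneg_right hKδ hT0
    have h2 : δ * (K * T) / 2 = δ * K * T / 2 := by ring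
    rw [h2]
    linarith
  have h10 : δ * t / 2 ≤ Real.exp (δ * t / 2) := by
    have := Real.add_one_le_exp (δ * t / 2)
    linarith
  have h11 : l ^ 4 * (δ * t / 2) ≤ Real.exp (δ * t) := by
    have e2 : Real.exp (δ * t) = Real.exp (δ * t / 2) * Real.exp (δ * t / 2) := by
      rw [← Real.exp_add]; congr 1; ring
    rw [e2]
    exact mul_le_mul h9 h10 (by positivity) (Real.exp_pos _).le
  refine le_trans ?_ h11
  have h12 : 0 ≤ l ^ 3 * t := by positivity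
  have h13 := mul_le_mul_of_nonneg_right hln h12
  linarith

lemma num2 {l t n c : ℝ} (hl : 0 ≤ l) (hn : 0 ≤ n) (hc : c ≤ 4 * (l * t)) :
    4 * ((2 * c) * l ^ 2 * n) ≤ 32 * (l ^ 3 * t * n) := by
  have h7 : 0 ≤ l ^ 2 * n := by positivity
  have := mul_le_mul_of_nonneg_right hc h7
  linarith

lemma num3 {a c l K t T : ℝ} (ha : a = l * t) (ht : t = K * T) (hl : 0 ≤ l) (hK : 0 ≤ K)
    (hT : T ≤ l) (hT0 : 0 ≤ T) (hc : c ≤ 4 * a) :
    2 * a * (2 * c) * l ^ 2 ≤ 16 * K ^ 2 * l ^ 6 := by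
  have u2 : 0 ≤ a := by rw [ha, ht]; positivity
  have u1 : a ≤ K * l ^ 2 := by
    rw [ha, ht]
    have := mul_le_mul_of_nonneg_left hT (show 0 ≤ l * K by positivity)
    linarith
  calc 2 * a * (2 * c) * l ^ 2 ≤ 2 * a * (2 * (4 * a)) * l ^ 2 := by gcongr
    _ = 16 * a ^ 2 * l ^ 2 := by ring
    _ ≤ 16 * (K * l ^ 2) ^ 2 * l ^ 2 := by gcongr
    _ = _ := by ring

lemma num4 {m K : ℝ} {l q L : ℕ} (hq : Real.exp (2 * m * K) ≤ 2 ^ q)
    (f1 : (2 : ℝ) ^ L ≤ l) : Real.exp (2 * m * (K * (L + 1))) ≤ Real.exp (2 * m * K) * (l : ℝ) ^ q := by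
  have e3 : Real.exp (2 * m * (K * (L + 1))) =
      Real.exp (2 * m * K) * Real.exp (2 * m * K) ^ L := by
    rw [← Real.exp_nat_mul, ← Real.exp_add]
    congr 1
    ring
  rw [e3]
  refine mul_le_mul_of_nonneg_left ?_ (Real.exp_pos _).le
  calc Real.exp (2 * m * K) ^ L ≤ (2 ^ q) ^ L := pow_le_pow_left₀ (Real.exp_pos _).le hq _
    _ = (2 ^ L) ^ q := by rw [← pow_mul, ← pow_mul, mul_comm]
    _ ≤ (l : ℝ) ^ q := pow_le_pow_left₀ (by positivity) f1 q

lemma num5 {β : ℝ} {l e : ℕ} (hl : 1 ≤ l) (h : (l : ℝ) ^ (4 * e) ≤ β) :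
    β ^ (-(1 / 4) : ℝ) ≤ ((l : ℝ) ^ e)⁻¹ := by
  have hl0 : (0 : ℝ) < l := by exact_mod_cast hl
  have w1 : (((l : ℝ) ^ e) ^ 4) ≤ β := by
    rw [← pow_mul, mul_comm e 4]
    exact h
  have w2 : β ^ (-(1 / 4) : ℝ) ≤ (((l : ℝ) ^ e) ^ 4) ^ (-(1 / 4) : ℝ) :=
    Real.rpow_le_rpow_of_nonpos (by positivity) w1 (by norm_num)
  refine w2.trans (le_of_eq ?_)
  rw [Real.rpow_neg (by positivity), ← Real.rpow_natCast, ← Real.rpow_mul (by positivity)]
  norm_num

lemma num6 {C v b l X E : ℝ} {p q : ℕ} (hC : 0 < C) (hv0 : 0 ≤ v) (hl : 1 ≤ l)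
    (hX : 0 ≤ X) (hv : v ≤ X * l ^ 6) (hb0 : 0 ≤ b) (hb : b ≤ (l ^ (6 * p + q + 1))⁻¹)
    {F : ℝ} (hF : 0 < F) (hE : E ≤ F * l ^ q) (hE0 : 0 < E) (hD : 30 * C * X ^ p * F ≤ l) :
    C * v ^ p * b ≤ 1 / 30 * E⁻¹ := by
  have hl0 : 0 < l := by linarith
  have v2 : v ^ p ≤ X ^ p * l ^ (6 * p) := by
    refine (pow_le_pow_left₀ hv0 hv p).trans (le_of_eq ?_)
    rw [mul_pow, ← pow_mul]
  have v5 : C * v ^ p * b ≤ C * (X ^ p * l ^ (6 * p)) * (l ^ (6 * p + q + 1))⁻¹ := by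
    gcongr
  have v6 : C * (X ^ p * l ^ (6 * p)) * (l ^ (6 * p + q + 1))⁻¹ =
      C * X ^ p / (l ^ q * l) := by
    rw [pow_succ, pow_add]
    field_simp
  rw [v6] at v5
  refine v5.trans ?_
  have hlq : 0 < l ^ q * l := by positivity
  rw [div_le_iff₀ hlq]
  have v7 : 30 * (C * X ^ p) * E ≤ l ^ q * l := by
    calc 30 * (C * X ^ p) * E ≤ 30 * (C * X ^ p) * (F * l ^ q) := by gcongr
      _ = (30 * C * X ^ p * F) * l ^ q := by ring
      _ ≤ l * l ^ q := by gcongr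
      _ = _ := by ring
  rw [show 1 / 30 * E⁻¹ * (l ^ q * l) = (l ^ q * l) / (30 * E) by field_simp,
    le_div_iff₀ (by positivity)]
  linarith

/-- **Q15** -/
theorem t_Q15 (h13 : S_Q13) (h14 : S_Q14) : S_Q15 := by
  intro N k _ hN hk _ _ _ _ μ _ _ m hm hmN
  haveI := mu6_prob μ
  haveI := mu6_haar μ
  haveI := right_inv'' (mu6 μ)
  haveI := inv_inv'' (mu6 μ)
  obtain ⟨P, Q, hPQ⟩ := Pool.Agent.Run7.h871.TP.exists_twPair N hk
  obtain ⟨n, ⟨B⟩⟩ := exists_frame (SU_closed N)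
  obtain ⟨C, p, hC, h14⟩ := h14 N k hk μ
  obtain ⟨m1, hm1, hm1'⟩ := exists_between hmN
  obtain ⟨δ, hδ⟩ : ∃ δ, δ = 2 * (m1 - m) := ⟨_, rfl⟩
  have hδ0 : 0 < δ := by rw [hδ]; linarith
  obtain ⟨l1, hl1⟩ := eventually_atTop.1 ((rate_lim N hN).eventually (lt_mem_nhds hm1'))
  obtain ⟨K, hK⟩ : ∃ K : ℕ, max (1 / m) (8 / δ) ≤ K := exists_nat_ge _
  have hKm : 1 ≤ m * K := by
    have := (le_max_left _ _).trans hK
    rwa [div_le_iff₀ hm, mul_comm] at this
  have hKδ : 8 ≤ δ * K := by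
    have := (le_max_right _ _).trans hK
    rwa [div_le_iff₀ hδ0, mul_comm] at this
  have hK0 : (0 : ℝ) < K := by
    have h1 : 0 < m * K := by linarith
    exact (mul_pos_iff_of_pos_left hm).1 h1
  have hK1 : 1 ≤ K := by exact_mod_cast hK0
  obtain ⟨q, hq⟩ : ∃ q : ℕ, Real.exp (2 * m * K) ≤ 2 ^ q := by
    obtain ⟨q, hq⟩ := pow_unbounded_of_one_lt (Real.exp (2 * m * K)) (show (1 : ℝ) < 2 by norm_num)
    exact ⟨q, hq.le⟩
  obtain ⟨D, hD⟩ : ∃ D, D = 30 * C * (16 * (K : ℝ) ^ 2) ^ p * Real.exp (2 * m * K) := ⟨_, rfl⟩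
  obtain ⟨l2, hl2⟩ : ∃ l2 : ℕ, max D (1920 * n / δ) ≤ l2 := exists_nat_ge _
  refine ⟨4 * (6 * p + q + 1), max 1 (max l1 l2), fun l _ hl β hβ => ?_⟩
  have hl01 : 1 ≤ l := (le_max_left _ _).trans hl
  have hl11 : l1 ≤ l := ((le_max_left _ _).trans (le_max_right _ _)).trans hl
  have hl21 : l2 ≤ l := ((le_max_right _ _).trans (le_max_right _ _)).trans hl
  have hlr : (1 : ℝ) ≤ l := by exact_mod_cast hl01
  have hlD : D ≤ l := (le_max_left _ _).trans (hl2.trans (by exact_mod_cast hl21))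
  have hln : 1920 * n / δ ≤ l := (le_max_right _ _).trans (hl2.trans (by exact_mod_cast hl21))
  have hrate : m1 / l ≤ rate l N := by
    rw [div_le_iff₀ (by linarith), mul_comm]
    exact (hl1 l hl11).le
  obtain ⟨f1, f2, f3⟩ := log_facts hl01
  obtain ⟨T, hT⟩ : ∃ T, T = Nat.log 2 l + 1 := ⟨_, rfl⟩
  have hTl : T ≤ l := by rw [hT]; exact f3
  have hT1 : 1 ≤ T := by omega
  have hT1' : (1 : ℝ) ≤ T := by exact_mod_cast hT1
  have hTlog : Real.log l ≤ T := by rw [hT]; push_cast; exact f2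
  obtain ⟨t, ht⟩ : ∃ t, t = K * T := ⟨_, rfl⟩
  have htr : (t : ℝ) = K * T := by rw [ht]; push_cast; rfl
  have ht1 : 1 ≤ t := by rw [ht]; exact Nat.mul_pos hK1 hT1
  have ht1' : (1 : ℝ) ≤ t := by exact_mod_cast ht1
  obtain ⟨a, ha⟩ : ∃ a, a = l * t := ⟨_, rfl⟩
  have har : (a : ℝ) = l * t := by rw [ha]; push_cast; rfl
  have ha1 : 1 ≤ a := by rw [ha]; exact Nat.mul_pos hl01 ht1
  have ha1' : (1 : ℝ) ≤ a := by exact_mod_cast ha1
  haveI : NeZero a := ⟨by omega⟩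
  haveI : NeZero (2 * a) := ⟨by omega⟩
  haveI : NeZero (2 * (2 * a)) := ⟨by omega⟩
  have hsm : m / l * (2 * a) = 2 * m * t := by
    rw [har]
    field_simp
  refine ⟨a, ha1, Real.exp (-(m / l * (2 * a))), Real.exp_pos _, ?_, ?_, ?_⟩
  · -- `s ≤ 1 / 2`
    rw [hsm]
    have h1 : 1 ≤ 2 * m * t := by
      rw [htr]
      have h5 := mul_le_mul_of_nonneg_right hKm (show (0 : ℝ) ≤ T by positivity)
      have h6 : 2 * m * (K * T) = 2 * (m * K * T) := by ring
      rw [h6]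
      linarith
    have h2 : Real.exp (-(2 * m * t)) ≤ Real.exp (-1) := Real.exp_le_exp.2 (by linarith)
    have h3 : Real.exp (-1) ≤ 1 / 2 := by
      rw [Real.exp_neg, inv_le_comm₀ (Real.exp_pos _) (by norm_num)]
      have := Real.add_one_le_exp (1 : ℝ)
      linarith
    linarith
  · rw [← Real.exp_mul]
    congr 1
    have : (a : ℝ) ≠ 0 := by linarith
    field_simp
  -- the criterion
  refine crS_of (mu6 μ) l ha1 fun c hc inst => ?_
  haveI : NeZero c := ⟨by omega⟩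
  rw [hsm]
  have hc8 : (c : ℝ) ≤ 4 * a := by
    rcases hc with rfl | rfl
    · push_cast; linarith
    · push_cast; linarith
  obtain ⟨d1, d2, d3⟩ := det_sharp B hN l hPQ (2 * a) (2 * (2 * a)) (2 * c) rfl
  have hlim := zt_ratio B (mu6 μ) l hPQ (2 * a) (2 * (2 * a)) (2 * c) rfl d1 d2
  obtain ⟨r, hr⟩ : ∃ r, r = LinearMap.det (La B P Q : V (2 * a) (2 * c) l n →ₗ[ℝ] _) ^ 2 /
    LinearMap.det (La B P Q : V (2 * (2 * a)) (2 * c) l n →ₗ[ℝ] _) := ⟨_, rfl⟩
  rw [← hr] at d3 hlim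
  have hr0 : 0 < r := by rw [hr]; positivity
  have hlim' : Tendsto (fun β => Zs μ (2 * (2 * a)) (2 * c) l k β /
      Zs μ (2 * a) (2 * c) l k β ^ 2) atTop (𝓝 r) := by
    refine hlim.congr fun β => ?_
    rw [h13, h13]
  have hβ1 : 1 ≤ β := (one_le_pow₀ hlr).trans hβ
  have hlog := h14 a c l r hr0 hlim' β hβ1
  rw [h13, h13] at hlog
  -- the Gaussian part
  have hy : 4 * (((2 * c : ℕ) : ℝ) * l ^ 2 * n) * Real.exp (-rate l N) ^ (2 * a) ≤
      1 / 30 * Real.exp (-(2 * m * t)) := by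
    have g1 : Real.exp (-rate l N) ^ (2 * a) ≤ Real.exp (-(2 * m1 * t)) := by
      rw [← Real.exp_nat_mul, Real.exp_le_exp]
      have : 2 * m1 * t ≤ ((2 * a : ℕ) : ℝ) * rate l N := by
        have h5 := mul_le_mul_of_nonneg_left hrate (show (0 : ℝ) ≤ 2 * a by positivity)
        have h6 : 2 * (a : ℝ) * (m1 / l) = 2 * m1 * t := by
          rw [har]; field_simp
        push_cast
        linarith
      linarith
    have g2 : 4 * (((2 * c : ℕ) : ℝ) * l ^ 2 * n) ≤ 32 * (l ^ 3 * t * n) := by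
      push_cast
      exact num2 (by linarith) (by positivity) (by rw [← har]; exact hc8)
    have g3 : 960 * ((l : ℝ) ^ 3 * t * n) ≤ Real.exp (δ * t) :=
      num1 hlr htr hTlog (by linarith) hKδ (by rwa [div_le_iff₀ hδ0] at hln) (by positivity) hδ0
        (by linarith)
    have g4 : Real.exp (-(2 * m1 * t)) = Real.exp (-(2 * m * t)) * Real.exp (-(δ * t)) := by
      rw [← Real.exp_add]; congr 1; rw [hδ]; ring
    calc 4 * (((2 * c : ℕ) : ℝ) * l ^ 2 * n) * Real.exp (-rate l N) ^ (2 * a)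
        ≤ 32 * (l ^ 3 * t * n) * Real.exp (-(2 * m1 * t)) :=
          mul_le_mul g2 g1 (by positivity) (by positivity)
      _ = 1 / 30 * Real.exp (-(2 * m * t)) *
          ((960 * ((l : ℝ) ^ 3 * t * n)) * Real.exp (-(δ * t))) := by rw [g4]; ring
      _ ≤ 1 / 30 * Real.exp (-(2 * m * t)) * 1 := by
          refine mul_le_mul_of_nonneg_left ?_ (by positivity)
          rw [Real.exp_neg, ← div_eq_mul_inv, div_le_one (Real.exp_pos _)]
          exact g3
      _ = _ := mul_one _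
  -- the perturbation
  have hη : C * vol (2 * a) (2 * c) l ^ p * β ^ (-(1 / 4) : ℝ) ≤
      1 / 30 * Real.exp (-(2 * m * t)) := by
    have v0 : 0 ≤ vol (2 * a) (2 * c) l := by unfold vol; positivity
    have v1 : vol (2 * a) (2 * c) l ≤ 16 * (K : ℝ) ^ 2 * l ^ 6 := by
      unfold vol
      push_cast
      exact num3 har htr (by linarith) hK0.le (by exact_mod_cast hTl) (by linarith) hc8
    have v4 := num4 (l := l) hq f1
    have e5 : (t : ℝ) = K * ((Nat.log 2 l : ℕ) + 1) := by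
      rw [htr, hT]; push_cast; rfl
    rw [← e5] at v4
    rw [Real.exp_neg]
    exact num6 (p := p) (q := q) hC v0 hlr (by positivity) v1
      (Real.rpow_nonneg (by linarith) _) (num5 hl01 hβ) (Real.exp_pos _) v4 (Real.exp_pos _)
      (by rw [← hD]; exact hlD)
  have hR : 0 < Zt (mu6 μ) l k β (2 * (2 * a)) (2 * c) / Zt (mu6 μ) l k β (2 * a) (2 * c) ^ 2 := by
    have z1 : 0 < Zt (mu6 μ) l k β (2 * (2 * a)) (2 * c) :=
      Pool.Agent.Run7.h630.R2.Zt_pos (SU_closed N) (mu6 μ) β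
    have z2 : 0 < Zt (mu6 μ) l k β (2 * a) (2 * c) :=
      Pool.Agent.Run7.h630.R2.Zt_pos (SU_closed N) (mu6 μ) β
    positivity
  have hfin := ratio_ge hR hr0 (by positivity) (by
    have := Real.rpow_nonneg (show (0 : ℝ) ≤ β by linarith) (-(1 / 4) : ℝ)
    have v0 : 0 ≤ vol (2 * a) (2 * c) l := by unfold vol; positivity
    positivity) d3 hlog
  refine hfin.trans ?_
  have := add_le_add hy hη
  linarith

end

end Pool.Agent.Run7.h897.QC
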