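import Pool.Agent.Run7.h630.QC.Iface2
import Pool.Agent.Run7.h630.WL.Lim
import Pool.Agent.Run7.h897.TW.Loc
import Pool.Agent.Run7.h897.TW.Fou

/-!
# Q16: the criterion implies the existence of the thermodynamic limit and the gap
-/

set_option linter.unusedSectionVars false
set_option linter.unusedVariables false
set_option linter.style.haveILetI false

open MeasureTheory Matrix Filter Topology
open Pool.Agent.Run7.h897 (TW.XT TW.rate TW.Cn TW.CrS TW.Ls TW.Lc TW.sg TW.Lk TW.perZ)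
open Pool.Agent.Run7.h897.FS (PM BM)
open Pool.Agent.Run7.h897.ST (S4 S6 phi phi_cont phi_symm_cont mu6 mu6_haar mu6_prob)
open Pool.Agent.Run7.h871.TC (wE)
open Run7.h4.YM Run7.h630.WL Run7.h630.QC

namespace Pool.Agent.Run7.h897.QC

noncomputable section

variable {N l : ℕ} [NeZero N] [NeZero l] [MeasurableSpace (S4 N)] [BorelSpace (S4 N)]
  [MeasurableSpace (S6 N)] [BorelSpace (S6 N)]

/-- extension of a slice configuration -/
def ext {b : ℕ} (x : TW.Ls b l → S6 N) : LinkZ l → SU N := fun e =>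
  Fin.cases (motive := fun _ => SU N) 1
    (fun j => (phi N).symm (x ((((e.2.2.1 : ℤ) : ZMod b), e.2.2.2), j))) e.1

omit [NeZero l] in
lemma ext_meas {b : ℕ} : Measurable (ext : (TW.Ls b l → S6 N) → LinkZ l → SU N) := by
  refine measurable_pi_iff.2 fun e => ?_
  obtain ⟨i, v⟩ := e
  refine Fin.cases ?_ (fun j => ?_) i
  · exact measurable_const
  · exact (phi_symm_cont N).measurable.comp (measurable_pi_apply _)

/-- observables of the time slice zero -/
def Tz (F : (LinkZ l → SU N) → ℝ) : Prop :=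
  ∀ V V' : LinkZ l → SU N, (∀ e : LinkZ l, e.1 ≠ 0 → e.2.1 = 0 → V e = V' e) → F V = F V'

omit [NeZero N] [NeZero l] [MeasurableSpace (S4 N)] [BorelSpace (S4 N)]
  [MeasurableSpace (S6 N)] [BorelSpace (S6 N)] in
lemma obs_tz {F : (LinkZ l → SU N) → ℝ} (hF : IsObs F) : Tz F := by
  obtain ⟨-, R, hR⟩ := hF
  exact fun V V' h => hR V V' fun e he he2 _ => h e he he2

lemma ext_per {a b : ℕ} [NeZero a] [NeZero b] {F : (LinkZ l → SU N) → ℝ} (hF : Tz F)
    (U : TW.Lk a b l → S6 N) (t : ℕ) :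
    F6 (fun V => F (tshift t V)) (TW.perZ U) =
      F (ext (FS.xs (TW.sg a b l) U (t : ZMod a))) := by
  unfold F6
  refine hF _ _ fun e he he2 => ?_
  obtain ⟨i, x, y, v⟩ := e
  simp only at he he2
  subst he2
  revert he
  refine Fin.cases (fun h => absurd rfl h) (fun j _ => ?_) i
  change (phi N).symm (U ((((((0 : ℤ) + (t : ℤ) : ℤ) : ZMod a), ((y : ℤ) : ZMod b)), v), j.succ)) =
    (phi N).symm (U ((((t : ZMod a), ((y : ℤ) : ZMod b)), v), j.succ))
  rw [zero_add, Int.cast_natCast]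

omit [NeZero N] [NeZero l] [MeasurableSpace (S4 N)] [BorelSpace (S4 N)]
  [MeasurableSpace (S6 N)] [BorelSpace (S6 N)] in
lemma tshift_zero (V : LinkZ l → SU N) : tshift 0 V = V := by
  funext e
  unfold tshift
  simp

lemma ext_per0 {a b : ℕ} [NeZero a] [NeZero b] {F : (LinkZ l → SU N) → ℝ} (hF : Tz F)
    (U : TW.Lk a b l → S6 N) :
    F6 F (TW.perZ U) = F (ext (FS.xs (TW.sg a b l) U 0)) := by
  have := ext_per hF U 0
  simp only [tshift_zero, Nat.cast_zero] at this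
  exact this

omit [NeZero N] [NeZero l] [MeasurableSpace (S4 N)] [BorelSpace (S4 N)]
  [MeasurableSpace (S6 N)] [BorelSpace (S6 N)] in
lemma tshift_cont (t : ℕ) : Continuous (tshift t : (LinkZ l → SU N) → LinkZ l → SU N) :=
  continuous_pi fun _ => continuous_apply _

/-- locality -/
lemma ext_lc {b : ℕ} {F : (LinkZ l → SU N) → ℝ} {R : ℕ} (hR : ∀ V V' : LinkZ l → SU N,
    (∀ e : LinkZ l, e.1 ≠ 0 → e.2.1 = 0 → |e.2.2.1| ≤ R → V e = V' e) → F V = F V')
    (hc : 2 * R + 1 < b) :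
    TW.Lc (((R + 1 : ℕ) : ZMod b)) fun x : TW.Ls b l → S6 N => F (ext x) := by
  intro x x' h
  refine hR _ _ fun e he2 he hle => ?_
  obtain ⟨i, y0, y, v⟩ := e
  simp only at he he2 hle
  revert he2
  refine Fin.cases (fun h => absurd rfl h) (fun j _ => ?_) i
  change (phi N).symm (x ((((y : ℤ) : ZMod b), v), j)) =
    (phi N).symm (x' ((((y : ℤ) : ZMod b), v), j))
  refine congrArg _ (h _ ?_)
  change ((y : ℤ) : ZMod b) ≠ ((R + 1 : ℕ) : ZMod b)
  intro heq
  have h2 : (((R + 1 : ℕ) : ℤ) : ZMod b) = ((y : ℤ) : ZMod b) := by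
    rw [heq]; push_cast; rfl
  have h3 := (ZMod.intCast_eq_intCast_iff_dvd_sub _ _ b).1 h2.symm
  have h4 := abs_le.1 hle
  have h5 := Int.le_of_dvd (by push_cast; linarith [h4.2]) h3
  push_cast at h5
  have h6 : (2 * R + 1 : ℤ) < b := by exact_mod_cast hc
  linarith [h4.1]

lemma lim_diag {μ : Measure (SU N)} {k : ℕ} {β : ℝ} {ν : Measure (LinkZ l → SU N)}
    (hν : IsLimit k μ β ν) (F : (LinkZ l → SU N) → ℝ) (hF : Continuous F) :
    Tendsto (fun q : ℕ => expect μ k β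
      fun U : Link (2 * (q + 1)) (2 * (q + 1)) l → SU N => F (per U)) atTop (𝓝 (∫ V, F V ∂ν)) :=
  (hν.lim F hF).comp (tendsto_atTop_diagonal : Tendsto (fun q : ℕ => (q, q)) atTop atTop)

/-- exponential clustering in the infinite volume -/
theorem gapZ (μ : Measure (SU N)) [IsProbabilityMeasure μ] [μ.IsHaarMeasure] {k : ℕ} {β : ℝ}
    {z : ZMod N → S6 N} (hz : TW.Cn (wE N l k β) z)
    {a : ℕ} (ha : 1 ≤ a) {s m : ℝ} (hs0 : 0 < s) (hs : s ≤ 1 / 2)
    (hsm : s ^ (1 / (2 * a) : ℝ) = Real.exp (-m))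
    (hcr : TW.CrS (mu6 μ) (wE N l k β) a s) {ν : Measure (LinkZ l → SU N)}
    (hν : IsLimit k μ β ν) : HasGap ν m := by
  haveI := mu6_prob μ
  haveI := mu6_haar μ
  haveI := Pool.Agent.Run7.h897.ST.right_inv'' (mu6 μ)
  haveI := Pool.Agent.Run7.h897.ST.inv_inv'' (mu6 μ)
  have hb : (wE N l k β).Bd := Pool.Agent.Run7.h871.TC.wE_bd β
  have hw : (wE N l k β).Sy := Pool.Agent.Run7.h871.TC.wE_sy β
  intro F F' hO hO' C C' hC hC' t ht
  have hC0 : 0 ≤ C := (abs_nonneg _).trans (hC fun _ => 1)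
  have hC0' : 0 ≤ C' := (abs_nonneg _).trans (hC' fun _ => 1)
  have hFt := obs_tz hO
  have hFt' := obs_tz hO'
  obtain ⟨hFc, R, hR⟩ := hO
  obtain ⟨hFc', R', hR'⟩ := hO'
  have hrate : s ^ ((t : ℝ) / (2 * a)) = Real.exp (-(m * t)) := by
    rw [show (t : ℝ) / (2 * a) = 1 / (2 * a) * t by ring, Real.rpow_mul hs0.le, hsm,
      ← Real.exp_mul]
    congr 1
    ring
  refine le_of_forall_pos_le_add fun ε hε => ?_
  have hK : 0 < 2 * C * C' + 1 := by positivity
  obtain ⟨n0, hn0⟩ := TW.true_lim (μ := mu6 μ) hb hw hz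
    (fun ι _ _ p ε h1 h2 h3 h4 => TW.fourier_sum ι p ε h1 h2 h3 h4)
    (fun a b _ _ s hs => Pool.Agent.Run7.h630.R2.dc_range s hs) ha hs0 hs hcr ht
    (show 0 < ε / (2 * C * C' + 1) by positivity)
  have hsh : Continuous fun V => F' (tshift t V) := hFc'.comp (tshift_cont t)
  have l1 := lim_diag hν (fun V => F V * F' (tshift t V)) (hFc.mul hsh)
  have l2 := lim_diag hν _ hFc
  have l3 := lim_diag hν _ hFc'
  have l4 := (l1.sub (l2.mul l3)).abs
  refine le_of_tendsto l4 ((eventually_ge_atTop (max n0 (R + R'))).mono fun q hq => ?_)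
  have q1 : n0 ≤ q := (le_max_left _ _).trans hq
  have q2 : R + R' ≤ q := (le_max_right _ _).trans hq
  rw [expect_eq μ k β (F := fun V => F V * F' (tshift t V)) (hFc.mul hsh), expect_eq μ k β hFc,
    expect_eq μ k β hFc']
  have e1 : ∀ U : TW.Lk (2 * (q + 1)) (2 * (q + 1)) l → S6 N,
      F6 (fun V => F V * F' (tshift t V)) (TW.perZ U) =
        F (ext (FS.xs (TW.sg (2 * (q + 1)) (2 * (q + 1)) l) U 0)) *
          F' (ext (FS.xs (TW.sg (2 * (q + 1)) (2 * (q + 1)) l) U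
            (t : ZMod (2 * (q + 1))))) := by
    intro U
    rw [← ext_per0 hFt U, ← ext_per hFt' U t]
    rfl
  simp only [e1, ext_per0 hFt, ext_per0 hFt']
  obtain ⟨c, hc⟩ : ∃ c, c = 2 * (q + 1) := ⟨_, rfl⟩
  haveI : NeZero c := ⟨by omega⟩
  have hm : ∀ {H : (LinkZ l → SU N) → ℝ}, Continuous H → ∀ {C : ℝ}, (∀ V, |H V| ≤ C) →
      FS.BM fun x : TW.Ls c l → S6 N => H (ext x) := fun hH C hC =>
    ⟨hH.measurable.comp ext_meas, C, fun x => hC _⟩
  have hl : ∀ V V' : LinkZ l → SU N, (∀ e : LinkZ l, e.1 ≠ 0 → e.2.1 = 0 →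
      |e.2.2.1| ≤ ((R + R' : ℕ) : ℤ) → V e = V' e) → F V = F V' := fun V V' h =>
    hR V V' fun e he he2 hle => h e he he2 (hle.trans (by push_cast; omega))
  have hl' : ∀ V V' : LinkZ l → SU N, (∀ e : LinkZ l, e.1 ≠ 0 → e.2.1 = 0 →
      |e.2.2.1| ≤ ((R + R' : ℕ) : ℤ) → V e = V' e) → F' V = F' V' := fun V V' h =>
    hR' V V' fun e he he2 hle => h e he he2 (hle.trans (by push_cast; omega))
  have h1 := hn0 (q + 1) (by omega) c hc ((R + R' + 1 : ℕ) : ZMod c) (hm hFc hC) (hm hFc' hC')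
    (ext_lc hl (by omega)) (ext_lc hl' (by omega)) (fun x => hC _) (fun x => hC' _) hC0 hC0'
  subst hc
  refine h1.trans ?_
  rw [hrate]
  have h2 : 2 * C * C' * (ε / (2 * C * C' + 1)) ≤ ε := by
    rw [mul_div_assoc', div_le_iff₀ hK]
    have : 0 ≤ 2 * C * C' := by positivity
    nlinarith
  rw [mul_add]
  linarith

end

/-- **Q16** -/
theorem t_Q16 : S_Q16 := by
  intro N l k _ _ hN hk _ _ _ _ μ _ _ β m a0 ha0 s hs0 hs hsm hcr
  exact ⟨exists_limit μ k β (cau μ (Pool.Agent.Run7.h871.UP.zc_cn β) ha0 hs0 hs hcr),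
    fun ν hν => gapZ μ (Pool.Agent.Run7.h871.UP.zc_cn β) ha0 hs0 hs hsm hcr hν⟩

end Pool.Agent.Run7.h897.QC
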